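import Pool.Agent.H85.LSP.Def2

/-!
# LSQ: the irreducible polynomial of an algebraic number
-/

set_option autoImplicit false

namespace Pool.LSP

open Polynomial Filter Topology Finset
open scoped ComplexConjugate

theorem t_dvd : DVDStmt := by
  intro Q hQ hdeg α hα A hA
  have hprim : Q.IsPrimitive := hQ.isPrimitive (by omega)
  have hQ0 : Q ≠ 0 := hQ.ne_zero
  have hQα : aeval α Q = 0 := by
    unfold Rt at hα
    have h1 := (mem_roots'.1 hα).2
    rw [IsRoot.def, eval_map] at h1
    exact h1
  have hirr : Irreducible (Q.map (Int.castRingHom ℚ)) :=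
    (IsPrimitive.Int.irreducible_iff_irreducible_map_cast hprim).1 hQ
  have conv : ∀ B : ℤ[X], aeval α (B.map (Int.castRingHom ℚ)) = aeval α B := by
    intro B
    rw [aeval_def, aeval_def, eval₂_map]
    congr 1
  have h2 := minpoly.eq_of_irreducible hirr (by rw [conv]; exact hQα)
  have h3 : minpoly ℚ α ∣ A.map (Int.castRingHom ℚ) := minpoly.dvd ℚ α (by rw [conv]; exact hA)
  have h4 : Q.map (Int.castRingHom ℚ) ∣ A.map (Int.castRingHom ℚ) := by
    refine dvd_trans ?_ h3
    rw [← h2]
    exact dvd_mul_right _ _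
  exact (IsPrimitive.Int.dvd_iff_map_cast_dvd_map_cast Q A hprim).2 h4

end Pool.LSP
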