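import Pool.Agent.H85.LSP.Def2

/-!
# LSQ: small values at the roots of modulus at most one (pigeonhole)
-/

set_option autoImplicit false

namespace Pool.LSP

open Polynomial Filter Topology Finset
open scoped ComplexConjugate

/-- The roots are closed under conjugation. -/
theorem phl_conj {Q : ℤ[X]} {γ : ℂ} (h : γ ∈ Rt Q) : conj γ ∈ Rt Q := by
  unfold Rt at h ⊢
  obtain ⟨h0, h1⟩ := mem_roots'.1 h
  refine mem_roots'.2 ⟨h0, ?_⟩
  rw [IsRoot.def, eval_map] at h1 ⊢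
  have h2 := congrArg (starRingEnd ℂ) h1
  rw [map_zero, hom_eval₂] at h2
  have e : (starRingEnd ℂ).comp (Int.castRingHom ℂ) = Int.castRingHom ℂ := RingHom.ext_int _ _
  rwa [e] at h2

theorem phl_norm (z : ℂ) : ‖z‖ ≤ |z.re + z.im| + |z.re - z.im| := by
  refine (Complex.norm_le_abs_re_add_abs_im z).trans ?_
  rcases abs_cases z.re with h1 | h1 <;> rcases abs_cases z.im with h2 | h2 <;>
    rcases abs_cases (z.re + z.im) with h3 | h3 <;> rcases abs_cases (z.re - z.im) with h4 | h4 <;>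
    linarith

theorem t_phl : PHLStmt := by
  classical
  intro Q _ hOut δ a hδ ha
  obtain ⟨D, hD⟩ : ∃ D, D = Q.natDegree := ⟨_, rfl⟩
  obtain ⟨I, hI⟩ : ∃ I : Finset ℂ, I = (Rt Q).toFinset.filter fun γ => ‖γ‖ ≤ 1 := ⟨_, rfl⟩
  have hcard : I.card < D := by
    have h1 : I ⊂ (Rt Q).toFinset := by
      rw [hI]
      refine Finset.filter_ssubset.2 ?_
      obtain ⟨α, hα⟩ := hOut
      unfold Out at hα
      rw [Finset.mem_filter] at hα
      exact ⟨α, hα.1, not_le.2 hα.2⟩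
    have h2 := Finset.card_lt_card h1
    have h3 := Multiset.toFinset_card_le (Rt Q)
    have h4 : Multiset.card (Rt Q) ≤ D := by
      rw [hD]
      unfold Rt
      exact (card_roots' _).trans natDegree_map_le
    omega
  -- the forms
  obtain ⟨s, hs⟩ : ∃ s : ℂ → ℕ → ℝ, s = fun γ j => ((a : ℂ) * γ ^ j).re + ((a : ℂ) * γ ^ j).im :=
    ⟨_, rfl⟩
  have hs1 : ∀ γ ∈ I, ∀ j, |s γ j| ≤ 2 * |(a : ℝ)| := by
    intro γ hγ j
    rw [hI, Finset.mem_filter] at hγ
    rw [hs]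
    have h1 : ‖(a : ℂ) * γ ^ j‖ ≤ |(a : ℝ)| := by
      rw [norm_mul, norm_pow, Complex.norm_intCast]
      exact mul_le_of_le_one_right (abs_nonneg _) (pow_le_one₀ (norm_nonneg _) hγ.2)
    have h2 := Complex.abs_re_le_norm ((a : ℂ) * γ ^ j)
    have h3 := Complex.abs_im_le_norm ((a : ℂ) * γ ^ j)
    refine (abs_add_le _ _).trans ?_
    linarith
  obtain ⟨l, hl⟩ : ∃ l : ℂ → (Fin D → ℤ) → ℝ, l = fun γ b => ∑ j : Fin D, (b j : ℝ) * s γ j :=
    ⟨_, rfl⟩
  -- the numbers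
  obtain ⟨K, hK⟩ := exists_nat_ge (4 * D * |(a : ℝ)| / δ + 1)
  have hK1 : (1 : ℝ) ≤ K := by
    refine le_trans ?_ hK
    have : 0 ≤ 4 * D * |(a : ℝ)| / δ := by positivity
    linarith
  obtain ⟨N, hN⟩ : ∃ N : ℕ, N = (3 * K) ^ I.card := ⟨_, rfl⟩
  obtain ⟨M, hM⟩ : ∃ M : ℕ, M = K * (N + 1) := ⟨_, rfl⟩
  -- the map
  obtain ⟨f, hf⟩ : ∃ f : (Fin D → Fin (N + 1)) → (I → ℤ),
      f = fun (b : Fin D → Fin (N + 1)) (γ : I) =>
        ⌊l γ (fun j => ((b j : ℕ) : ℤ)) / (δ / 2)⌋ := ⟨_, rfl⟩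
  have hmaps : ∀ b ∈ (Finset.univ : Finset (Fin D → Fin (N + 1))),
      f b ∈ Fintype.piFinset (fun _ : I => Finset.Icc (-(M : ℤ)) M) := by
    intro b _
    rw [Fintype.mem_piFinset]
    intro γ
    have h1 : |l γ (fun j => ((b j : ℕ) : ℤ))| ≤ D * (N * (2 * |(a : ℝ)|)) := by
      rw [hl]
      refine (Finset.abs_sum_le_sum_abs _ _).trans ?_
      refine (Finset.sum_le_card_nsmul _ _ (N * (2 * |(a : ℝ)|)) fun j _ => ?_).trans ?_
      · rw [abs_mul]
        refine mul_le_mul ?_ (hs1 _ γ.2 _) (abs_nonneg _) (by positivity)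
        push_cast
        rw [abs_of_nonneg (by positivity)]
        exact_mod_cast Nat.lt_succ_iff.1 (b j).2
      · rw [Finset.card_univ, Fintype.card_fin, nsmul_eq_mul]
    have h2 : |l γ (fun j => ((b j : ℕ) : ℤ)) / (δ / 2)| ≤ (K - 1) * (N + 1) := by
      rw [abs_div, abs_of_pos (show (0 : ℝ) < δ / 2 by positivity), div_le_iff₀ (by positivity)]
      refine h1.trans ?_
      have h3 : 4 * D * |(a : ℝ)| ≤ (K - 1) * δ := by
        rw [← div_le_iff₀ hδ]
        linarith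
      have h4 : (0 : ℝ) ≤ N := Nat.cast_nonneg N
      have h5 : 0 ≤ ((K : ℝ) - 1) * δ := mul_nonneg (by linarith) hδ.le
      calc (D : ℝ) * (N * (2 * |(a : ℝ)|)) = 4 * D * |(a : ℝ)| * N / 2 := by ring
        _ ≤ (K - 1) * δ * N / 2 := by gcongr
        _ ≤ (K - 1) * (N + 1) * (δ / 2) := by nlinarith
    have h4 : (0 : ℝ) ≤ N := Nat.cast_nonneg N
    have h6 : ((K : ℝ) - 1) * (N + 1) + 1 ≤ M := by
      rw [hM]
      push_cast
      nlinarith
    rw [abs_le] at h2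
    rw [hf]
    have h7 := Int.floor_le (l γ (fun j => ((b j : ℕ) : ℤ)) / (δ / 2))
    have h8 := Int.lt_floor_add_one (l γ (fun j => ((b j : ℕ) : ℤ)) / (δ / 2))
    rw [Finset.mem_Icc]
    constructor
    · have : (-(M : ℤ) : ℝ) - 1 < (⌊l γ (fun j => ((b j : ℕ) : ℤ)) / (δ / 2)⌋ : ℝ) := by
        push_cast
        linarith [h2.1]
      have h9 : (-(M : ℤ)) - 1 < ⌊l γ (fun j => ((b j : ℕ) : ℤ)) / (δ / 2)⌋ := by
        exact_mod_cast this
      linarith
    · have : ((⌊l γ (fun j => ((b j : ℕ) : ℤ)) / (δ / 2)⌋ : ℤ) : ℝ) ≤ ((M : ℤ) : ℝ) := by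
        push_cast
        linarith [h2.2]
      exact_mod_cast this
  have hcd : (Fintype.piFinset (fun _ : I => Finset.Icc (-(M : ℤ)) M)).card <
      (Finset.univ : Finset (Fin D → Fin (N + 1))).card := by
    rw [Fintype.card_piFinset, Finset.prod_const, Finset.card_univ, Finset.card_univ,
      Fintype.card_coe, Fintype.card_fun, Fintype.card_fin, Fintype.card_fin, Int.card_Icc]
    have hK1' : 1 ≤ K := by exact_mod_cast hK1
    have hM1 : 1 ≤ M := by rw [hM]; exact Nat.mul_pos hK1' (Nat.succ_pos _)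
    have e1 : ((M : ℤ) + 1 - -(M : ℤ)).toNat = 2 * M + 1 := by omega
    rw [e1]
    calc (2 * M + 1) ^ I.card ≤ (3 * K * (N + 1)) ^ I.card := by
          refine Nat.pow_le_pow_left ?_ _
          rw [Nat.mul_assoc, ← hM]
          omega
      _ = N * (N + 1) ^ I.card := by rw [mul_pow, ← hN]
      _ < (N + 1) * (N + 1) ^ I.card := Nat.mul_lt_mul_of_pos_right (by omega) (by positivity)
      _ = (N + 1) ^ (I.card + 1) := by rw [pow_succ]; ring
      _ ≤ (N + 1) ^ D := Nat.pow_le_pow_right (by omega) hcard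
  obtain ⟨b, -, b', -, hne, hbb⟩ := Finset.exists_ne_map_eq_of_card_lt_of_maps_to hcd hmaps
  -- the polynomial
  obtain ⟨x, hx⟩ : ∃ x : Fin D → ℤ, x = fun j => ((b j : ℕ) : ℤ) - ((b' j : ℕ) : ℤ) := ⟨_, rfl⟩
  obtain ⟨B, hB⟩ : ∃ B : ℤ[X], B = ∑ j : Fin D, C (x j) * X ^ (j : ℕ) := ⟨_, rfl⟩
  have hB0 : B ≠ 0 := by
    intro h0
    refine hne (funext fun j => ?_)
    have h1 : B.coeff (j : ℕ) = x j := by
      rw [hB, finsetSum_coeff, Finset.sum_eq_single j]
      · rw [coeff_C_mul, coeff_X_pow, if_pos rfl, mul_one]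
      · intro i _ hij
        rw [coeff_C_mul, coeff_X_pow, if_neg (fun h => hij (Fin.ext h.symm)), mul_zero]
      · intro h
        exact (h (Finset.mem_univ _)).elim
    rw [h0, coeff_zero, hx] at h1
    apply Fin.ext
    have h2 : ((b j : ℕ) : ℤ) - ((b' j : ℕ) : ℤ) = 0 := h1.symm
    omega
  have hval : ∀ γ : ℂ, aeval γ (C a * B) = ∑ j : Fin D, (x j : ℂ) * ((a : ℂ) * γ ^ (j : ℕ)) := by
    intro γ
    rw [map_mul, aeval_C, hB, map_sum, Finset.mul_sum]
    refine Finset.sum_congr rfl fun j _ => ?_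
    rw [map_mul, map_pow, aeval_X, aeval_C]
    simp only [algebraMap_int_eq, eq_intCast]
    ring
  have hform : ∀ γ : ℂ, (aeval γ (C a * B)).re + (aeval γ (C a * B)).im = l γ x := by
    intro γ
    rw [hval, Complex.re_sum, Complex.im_sum, ← Finset.sum_add_distrib, hl]
    refine Finset.sum_congr rfl fun j _ => ?_
    rw [hs, ← Complex.ofReal_intCast, Complex.re_ofReal_mul, Complex.im_ofReal_mul]
    ring
  have hlx : ∀ γ ∈ I, |l γ x| ≤ δ / 2 := by
    intro γ hγ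
    have h1 := congrFun hbb ⟨γ, hγ⟩
    rw [hf] at h1
    have h2 := Int.abs_sub_lt_one_of_floor_eq_floor h1
    have e1 : l γ x = l γ (fun j => ((b j : ℕ) : ℤ)) - l γ (fun j => ((b' j : ℕ) : ℤ)) := by
      rw [hl]
      simp only
      rw [← Finset.sum_sub_distrib]
      refine Finset.sum_congr rfl fun j _ => ?_
      rw [hx]
      push_cast
      ring
    rw [← sub_div, ← e1, abs_div, abs_of_pos (show (0 : ℝ) < δ / 2 by positivity),
      div_lt_one (by positivity)] at h2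
    exact h2.le
  refine ⟨B, hB0, ?_, fun γ hγ hγ1 => ?_⟩
  · rw [← hD]
    rw [natDegree_lt_iff_degree_lt hB0, hB]
    exact degree_sum_fin_lt x
  · have hγI : γ ∈ I := by
      rw [hI, Finset.mem_filter, Multiset.mem_toFinset]
      exact ⟨hγ, hγ1⟩
    have hγI' : conj γ ∈ I := by
      rw [hI, Finset.mem_filter, Multiset.mem_toFinset, RCLike.norm_conj]
      exact ⟨phl_conj hγ, hγ1⟩
    have hc : aeval (conj γ) (C a * B) = conj (aeval γ (C a * B)) := by
      rw [hval, hval, map_sum]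
      refine Finset.sum_congr rfl fun j _ => ?_
      simp
    have h1 := hform γ
    have h2 := hform (conj γ)
    rw [hc, Complex.conj_re, Complex.conj_im, ← sub_eq_add_neg] at h2
    refine (phl_norm (aeval γ (C a * B))).trans ?_
    rw [h1, h2]
    have h4 := hlx γ hγI
    have h5 := hlx _ hγI'
    linarith

end Pool.LSP
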