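import Pool.Agent.H85.LSP.Def2

/-!
# LSQ: hitting
-/

set_option autoImplicit false

namespace Pool.LSP

open Polynomial Filter Topology Finset
open scoped ComplexConjugate

theorem t_trm : TRMStmt := by
  classical
  intro β r c H hβ hr hH hrH hc Y
  obtain ⟨ρ, hρ⟩ : ∃ ρ, ρ = ‖β‖ := ⟨_, rfl⟩
  rw [← hρ] at hβ hrH hc ⊢
  have hρ0 : 0 < ρ := by linarith
  have hex : ∃ j : ℕ, 1 ≤ j ∧ ∃ p : ℤ, |Y j - c - p| ≤ r / 2 * (ρ ^ j + 1) := by
    refine ⟨H, hH, round (Y H - c), ?_⟩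
    refine (abs_sub_round _).trans ?_
    nlinarith
  obtain ⟨h, hh⟩ : ∃ h, h = Nat.find hex := ⟨_, rfl⟩
  obtain ⟨h1, p, hp⟩ := Nat.find_spec hex
  rw [← hh] at h1 hp
  have hmin : ∀ j, j < h → ¬ (1 ≤ j ∧ ∃ p : ℤ, |Y j - c - p| ≤ r / 2 * (ρ ^ j + 1)) :=
    fun j hj => Nat.find_min hex (hh ▸ hj)
  have hle : h ≤ H := by
    rw [hh]
    refine Nat.find_min' hex ⟨hH, round (Y H - c), ?_⟩
    refine (abs_sub_round _).trans ?_
    nlinarith
  have hβ0 : β ≠ 0 := by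
    rw [← norm_pos_iff, ← hρ]
    exact hρ0
  have hpow : ∀ j : ℕ, 1 ≤ ρ ^ j := fun j => one_le_pow₀ hβ.le
  refine ⟨h, h1, hle, ((c + p - Y h : ℝ) : ℂ) / β ^ h, ?_, ⟨p, ?_⟩, ?_⟩
  · rw [norm_div, norm_pow, ← hρ, Complex.norm_real, Real.norm_eq_abs,
      div_le_iff₀ (by positivity)]
    have e1 : |c + p - Y h| = |Y h - c - p| := by
      rw [← abs_neg]
      congr 1
      ring
    rw [e1]
    refine hp.trans ?_
    have := hpow h
    nlinarith
  · rw [div_mul_cancel₀ _ (pow_ne_zero _ hβ0), Complex.ofReal_re]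
    ring
  · intro j hj0 hjh
    have hD := hmin j hjh
    push Not at hD
    have hD' := hD hj0
    obtain ⟨q, hq⟩ := exists_half (Y j + (((c + p - Y h : ℝ) : ℂ) / β ^ h * β ^ j).re)
    rw [hq]
    have hre : |(((c + p - Y h : ℝ) : ℂ) / β ^ h * β ^ j).re| ≤ r / 2 * (ρ ^ j + 1 / ρ) := by
      refine (Complex.abs_re_le_norm _).trans ?_
      rw [norm_mul, norm_div, norm_pow, norm_pow, ← hρ, Complex.norm_real, Real.norm_eq_abs]
      have e1 : |c + p - Y h| = |Y h - c - p| := by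
        rw [← abs_neg]
        congr 1
        ring
      rw [e1]
      obtain ⟨k, rfl⟩ : ∃ k, h = j + (k + 1) := ⟨h - j - 1, by omega⟩
      calc |Y (j + (k + 1)) - c - p| / ρ ^ (j + (k + 1)) * ρ ^ j ≤
          r / 2 * (ρ ^ (j + (k + 1)) + 1) / ρ ^ (j + (k + 1)) * ρ ^ j := by gcongr
        _ = r / 2 * (ρ ^ j + 1 / ρ ^ (k + 1)) := by
          rw [pow_add]
          field_simp
        _ ≤ _ := by
          gcongr
          rw [pow_succ]
          have := hpow k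
          nlinarith
    have h5 := hD' q
    obtain ⟨x, hx⟩ : ∃ x, x = (((c + p - Y h : ℝ) : ℂ) / β ^ h * β ^ j).re := ⟨_, rfl⟩
    rw [← hx] at hre ⊢
    have e2 : Y j - c - q = (Y j + x - (q + 1 / 2)) + (1 / 2 - c) - x := by ring
    rw [e2] at h5
    have h6 := abs_sub ((Y j + x - (q + 1 / 2)) + (1 / 2 - c)) x
    have h7 := abs_add_le (Y j + x - (q + 1 / 2)) (1 / 2 - c)
    have e3 : r / 2 * (ρ ^ j + 1) = r / 2 * (ρ ^ j + 1 / ρ) + 2 * (r * (1 - 1 / ρ) / 4) := by ring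
    linarith

end Pool.LSP
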